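import Pool.Agent.Helper21_UR.Stmts

/-!
# Module R1: the refined region
-/

namespace Pool.Agent.Helper53_UR

open Complex MeasureTheory Pool.Agent.Helper21_UR

/-- The integrand of `JR`. -/
noncomputable def G (κ t0 c : ℝ) (m n : ℕ) (p : ℝ × ℝ) : ℂ :=
  cexp ((n : ℂ) * tt t0 p.1) * FF κ (tt t0 p.1) c m p.2

theorem G_continuous (hC : ContStatement) (κ t0 c : ℝ) (m n : ℕ) (h0 : 0 < t0)
    (hκ : κ = 1 / 2 ∨ κ = 3 / 2) : Continuous (G κ t0 c m n) := by
  have htt : Continuous fun p : ℝ × ℝ => tt t0 p.1 := by unfold tt; fun_prop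
  have h1 : Continuous fun p : ℝ × ℝ => cexp ((n : ℂ) * tt t0 p.1) :=
    (continuous_const.mul htt).cexp
  rcases hκ with h | h
  · subst h; exact h1.mul (hC.1 t0 c h0 m)
  · subst h; exact h1.mul (hC.2.1 t0 c h0 m)

theorem A0_eq (t0 : ℝ) : A0 t0 =
    Set.Icc (-(3 / 10 * t0)) (3 / 10 * t0) ×ˢ Set.Icc (-(5 * t0)) (5 * t0) := by
  ext p
  simp only [A0, Set.mem_ofPred_eq, Set.mem_prod, Set.mem_Icc, abs_le]

/-- Change of variables. -/
theorem change_var (g : ℝ × ℝ → ℂ) (hg : Continuous g) (t0 : ℝ) (h0 : 0 < t0) :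
    ∫ p in A0 t0, g p = (t0 : ℂ) ^ 2 *
      ∫ s in (-5 : ℝ)..5, ∫ v in (-(3 / 10 : ℝ))..(3 / 10), g (t0 * v, t0 * s) := by
  have hint : IntegrableOn g (A0 t0) := by
    rw [A0_eq]
    exact hg.continuousOn.integrableOn_compact (isCompact_Icc.prod isCompact_Icc)
  have e1 : ∫ p in A0 t0, g p =
      ∫ y in Set.Icc (-(5 * t0)) (5 * t0), ∫ x in Set.Icc (-(3 / 10 * t0)) (3 / 10 * t0),
        g (x, y) := by
    rw [A0_eq] at hint ⊢
    rw [Measure.volume_eq_prod] at hint ⊢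
    rw [← setIntegral_prod_swap, setIntegral_prod]
    · rfl
    · exact hint.swap
  have e2 : ∀ y : ℝ, ∫ x in Set.Icc (-(3 / 10 * t0)) (3 / 10 * t0), g (x, y) =
      (t0 : ℂ) * ∫ v in (-(3 / 10 : ℝ))..(3 / 10), g (t0 * v, y) := by
    intro y
    rw [integral_Icc_eq_integral_Ioc, ← intervalIntegral.integral_of_le (by linarith)]
    rw [intervalIntegral.integral_comp_mul_left (fun x => g (x, y)) h0.ne']
    rw [show t0 * (-(3 / 10 : ℝ)) = -(3 / 10 * t0) by ring,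
      show t0 * (3 / 10 : ℝ) = 3 / 10 * t0 by ring]
    rw [Complex.real_smul, ← mul_assoc]
    rw [Complex.ofReal_inv, mul_inv_cancel₀ (by exact_mod_cast h0.ne'), one_mul]
  rw [e1]
  simp_rw [e2]
  rw [integral_const_mul, integral_Icc_eq_integral_Ioc,
    ← intervalIntegral.integral_of_le (by linarith)]
  rw [intervalIntegral.integral_comp_mul_left
    (fun y => ∫ v in (-(3 / 10 : ℝ))..(3 / 10), g (t0 * v, y)) h0.ne']
  rw [show t0 * (-5 : ℝ) = -(5 * t0) by ring, show t0 * (5 : ℝ) = 5 * t0 by ring]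
  rw [Complex.real_smul, ← mul_assoc]
  congr 1
  have : (t0 : ℂ) ≠ 0 := by exact_mod_cast h0.ne'
  rw [Complex.ofReal_inv]
  field_simp

theorem one_add_ne (v : ℝ) : (1 + (v : ℂ) * I) ≠ 0 := by
  intro h
  have := congrArg Complex.re h
  simp at this

/-- The hyperbolic cosine in the denominator does not vanish. -/
theorem cosh_ne (s v : ℝ) : cosh ((Real.pi : ℂ) * s / (1 + (v : ℂ) * I)) ≠ 0 := by
  intro h
  rw [← Complex.cos_mul_I, Complex.cos_eq_zero_iff] at h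
  obtain ⟨k, hk⟩ := h
  have h1 : (Real.pi : ℂ) * s * I = (1 + (v : ℂ) * I) * ((2 * k + 1) * Real.pi / 2) := by
    rw [← hk]
    have h1 := one_add_ne v
    calc (Real.pi : ℂ) * s * I = ((Real.pi : ℂ) * s / (1 + (v : ℂ) * I) * (1 + (v : ℂ) * I)) * I := by
          rw [div_mul_cancel₀ _ h1]
      _ = _ := by ring
  have h2 := congrArg Complex.re h1
  have e1 : ((2 * (k : ℂ) + 1) * Real.pi / 2) = (((2 * (k : ℝ) + 1) * Real.pi / 2 : ℝ) : ℂ) := by
    push_cast; ring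
  have e2 : (Real.pi : ℂ) * s = ((Real.pi * s : ℝ) : ℂ) := by push_cast; ring
  rw [e1, e2] at h2
  simp only [Complex.mul_re, Complex.ofReal_re, Complex.I_re, mul_zero, Complex.ofReal_im,
    Complex.I_im, mul_one, sub_self, Complex.add_re, Complex.one_re, Complex.add_im,
    Complex.one_im, Complex.mul_im, add_zero, zero_add, sub_zero] at h2
  have h3 : (2 * (k : ℝ) + 1) = 0 := by
    have := Real.pi_pos
    by_contra hne
    apply hne
    have : (2 * (k : ℝ) + 1) * Real.pi = 0 := by linarith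
    rcases mul_eq_zero.1 this with h | h
    · exact h
    · exact absurd h Real.pi_pos.ne'
  have h4 : (2 * k + 1 : ℤ) = 0 := by exact_mod_cast h3
  omega

theorem norm_cosh_pi (s : ℝ) : ‖cosh ((Real.pi : ℂ) * s)‖ = Real.cosh (Real.pi * s) := by
  have : cosh ((Real.pi : ℂ) * s) = ((Real.cosh (Real.pi * s) : ℝ) : ℂ) := by
    push_cast; rfl
  rw [this, Complex.norm_real, Real.norm_eq_abs, abs_of_pos (Real.cosh_pos _)]

theorem cosh_pi_ne (s : ℝ) : cosh ((Real.pi : ℂ) * s) ≠ 0 := by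
  intro h
  have := norm_cosh_pi s
  rw [h, norm_zero] at this
  exact (Real.cosh_pos _).ne this

theorem norm_vs (κ : ℝ) : ‖vs κ‖ = 1 := by
  unfold vs; split_ifs <;> simp

theorem norm_phase (x s : ℝ) : ‖cexp (-(I * x * s))‖ = 1 := by
  have : -(I * (x : ℂ) * s) = ((-(x * s) : ℝ) : ℂ) * I := by push_cast; ring
  rw [this, Complex.norm_exp_ofReal_mul_I]

theorem K_ne (z v : ℝ) : (KK z v : ℂ) ≠ 0 := by
  unfold KK; exact_mod_cast (Real.exp_pos _).ne'

theorem KK_continuous (z : ℝ) : Continuous (KK z) := by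
  unfold KK
  have : ∀ v : ℝ, 1 + v ^ 2 ≠ 0 := fun v => by positivity
  fun_prop (disch := assumption)

theorem psi_continuous (z : ℝ) : Continuous (psi z) := by
  unfold psi
  have : ∀ v : ℝ, 1 + v ^ 2 ≠ 0 := fun v => by positivity
  fun_prop (disch := assumption)

theorem ell_continuous (s : ℝ) : Continuous (ell s) := by
  unfold ell
  refine Continuous.div continuous_const ?_ (fun v => cosh_ne s v)
  refine Complex.continuous_cosh.comp ?_
  exact continuous_const.div (by fun_prop) (fun v => one_add_ne v)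

/-- The common factor of the inner integrand. -/
noncomputable def Pf (κ x s : ℝ) : ℂ := cexp (-(I * x * s)) * vs κ / cosh ((Real.pi : ℂ) * s)

theorem Pf_ne (κ x s : ℝ) : Pf κ x s ≠ 0 := by
  unfold Pf
  refine div_ne_zero (mul_ne_zero (Complex.exp_ne_zero _) ?_) (cosh_pi_ne s)
  intro h
  have := norm_vs κ
  rw [h] at this
  simp at this

theorem norm_Pf (κ x s : ℝ) : ‖Pf κ x s‖ = 1 / Real.cosh (Real.pi * s) := by
  unfold Pf
  rw [norm_div, norm_mul, norm_phase, norm_vs, norm_cosh_pi, one_mul]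

theorem Pf_main (κ ch x s : ℝ) : Pf κ x s * (sg κ s * bt κ ch s ^ 2) = 2 * mainD κ ch x s := by
  unfold Pf mainD
  have := cosh_pi_ne s
  field_simp

/-- The slowly varying factor as a function of `v`. -/
noncomputable def Xf (κ t0 ch : ℝ) (m n : ℕ) (s v : ℝ) : ℂ :=
  G κ t0 (ch * t0) m n (t0 * v, t0 * s) /
    (((Real.exp (zz t0) * (t0 ^ 3 / 4) : ℝ) : ℂ) * Pf κ (m * t0) s * (KK (zz t0) v : ℂ) *
      cexp (I * psi (zz t0) v) * ell s v)

theorem ell_ne (s v : ℝ) : ell s v ≠ 0 := by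
  unfold ell
  exact div_ne_zero (cosh_pi_ne s) (cosh_ne s v)

theorem den_ne (κ t0 : ℝ) (m : ℕ) (s v : ℝ) (h0 : 0 < t0) :
    (((Real.exp (zz t0) * (t0 ^ 3 / 4) : ℝ) : ℂ) * Pf κ (m * t0) s * (KK (zz t0) v : ℂ) *
      cexp (I * psi (zz t0) v) * ell s v) ≠ 0 := by
  refine mul_ne_zero (mul_ne_zero (mul_ne_zero (mul_ne_zero ?_ (Pf_ne _ _ _)) (K_ne _ _))
    (Complex.exp_ne_zero _)) (ell_ne s v)
  have : 0 < Real.exp (zz t0) * (t0 ^ 3 / 4) := by positivity
  exact_mod_cast this.ne'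

theorem Xf_continuous (hC : ContStatement) (κ t0 ch : ℝ) (m n : ℕ) (h0 : 0 < t0)
    (hκ : κ = 1 / 2 ∨ κ = 3 / 2) (s : ℝ) : Continuous (Xf κ t0 ch m n s) := by
  unfold Xf
  refine Continuous.div ?_ ?_ (fun v => den_ne κ t0 m s v h0)
  · exact (G_continuous hC κ t0 (ch * t0) m n h0 hκ).comp (by fun_prop)
  · refine Continuous.mul (Continuous.mul (Continuous.mul continuous_const ?_) ?_)
      (ell_continuous s)
    · exact Complex.continuous_ofReal.comp (KK_continuous _)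
    · exact (continuous_const.mul (Complex.continuous_ofReal.comp (psi_continuous _))).cexp

theorem G_eq (κ t0 ch : ℝ) (m n : ℕ) (h0 : 0 < t0) (s v : ℝ) :
    G κ t0 (ch * t0) m n (t0 * v, t0 * s) =
      ((Real.exp (zz t0) * (t0 ^ 3 / 4) : ℝ) : ℂ) * Pf κ (m * t0) s *
        ((KK (zz t0) v : ℂ) * cexp (I * psi (zz t0) v) * ell s v * Xf κ t0 ch m n s v) := by
  have := den_ne κ t0 m s v h0
  unfold Xf
  rw [div_eq_mul_inv]
  set D := (((Real.exp (zz t0) * (t0 ^ 3 / 4) : ℝ) : ℂ) * Pf κ (m * t0) s * (KK (zz t0) v : ℂ) *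
      cexp (I * psi (zz t0) v) * ell s v) with hD
  calc G κ t0 (ch * t0) m n (t0 * v, t0 * s)
      = D * (G κ t0 (ch * t0) m n (t0 * v, t0 * s) * D⁻¹) := by
        rw [mul_comm _ D⁻¹, ← mul_assoc, mul_inv_cancel₀ this, one_mul]
    _ = _ := by rw [hD]; ring

/-- The estimate of the slowly varying factor. -/
theorem Xf_bound (hF : FormStatement) (hX : XbStatement) (κ t0 ch : ℝ) (m n : ℕ) (h0 : 0 < t0)
    (h1 : t0 ≤ 1 / 50) (hκ : κ = 1 / 2 ∨ κ = 3 / 2) (hT : Tie κ t0 m n) (hc0 : -1 ≤ ch)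
    (hc1 : ch ≤ 0) (s v : ℝ) (hs : |s| ≤ 5) (hv : |v| ≤ 3 / 10) :
    ‖Xf κ t0 ch m n s v - (sg κ s + κ * v) * (bt κ ch s + I * κ * v) ^ 2‖ ≤
      (1 / 40 + ‖sg κ s‖ ^ 2 / 50) *
        (‖sg κ s + κ * v‖ * ‖bt κ ch s + I * κ * v‖ ^ 2) := by
  obtain ⟨ε, hε, hG⟩ := hF κ t0 ch v s m n h0 h1 hκ (by linarith) (by
    rw [abs_mul, abs_of_pos h0]
    have := Real.pi_gt_three
    nlinarith [abs_nonneg s]) hT (tt t0 (t0 * v)) ((t0 : ℂ) * (sg κ s + κ * v))
      ((t0 : ℂ) * (bt κ ch s + I * κ * v)) rfl rfl rfl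
  have hB := hX t0 v s κ ch ε (tt t0 (t0 * v)) ((t0 : ℂ) * (sg κ s + κ * v))
      ((t0 : ℂ) * (bt κ ch s + I * κ * v)) h0 h1 hv hs hκ hc0 hc1 hε rfl rfl rfl
  set W := (t0 : ℂ) * (sg κ s + κ * v) with hW
  set Y := (t0 : ℂ) * (bt κ ch s + I * κ * v) with hY
  set T := tt t0 (t0 * v) with hTdef
  set R := PT T W * sin (W / 2) * (4 * sinh (Y / 2) ^ 2) * cexp (W ^ 2 / (2 * T)) * (1 + ε)
    with hR
  have ht0c : (t0 : ℂ) ≠ 0 := by exact_mod_cast h0.ne'
  have hXR : Xf κ t0 ch m n s v = (2 / (t0 : ℂ) ^ 3) * (2 * R) := by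
    have hd := den_ne κ t0 m s v h0
    unfold Xf
    rw [div_eq_iff hd]
    change cexp ((n : ℂ) * tt t0 (t0 * v)) * FF κ (tt t0 (t0 * v)) (ch * t0) m (t0 * s) = _
    rw [← hTdef, hG]
    unfold Pf ell
    have a1 := cosh_pi_ne s
    have a2 := cosh_ne s v
    push_cast
    generalize cosh ((Real.pi : ℂ) * s / (1 + (v : ℂ) * I)) = C2 at a2 ⊢
    generalize cosh ((Real.pi : ℂ) * s) = C1 at a1 ⊢
    field_simp
    ring
  have e1 : (sg κ s + κ * v) * (bt κ ch s + I * κ * v) ^ 2 = (2 / (t0 : ℂ) ^ 3) * (W / 2 * Y ^ 2) := by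
    rw [hW, hY]; field_simp
  have e2 : ‖sg κ s + κ * v‖ * ‖bt κ ch s + I * κ * v‖ ^ 2 =
      2 / t0 ^ 3 * (‖W / 2‖ * ‖Y‖ ^ 2) := by
    rw [hW, hY, norm_div, norm_mul, norm_mul, Complex.norm_real, Real.norm_eq_abs,
      abs_of_pos h0]
    simp only [Complex.norm_ofNat]
    field_simp
  rw [hXR, e1, ← mul_sub, norm_mul, e2]
  have e3 : ‖(2 / (t0 : ℂ) ^ 3)‖ = 2 / t0 ^ 3 := by
    rw [norm_div, norm_pow, Complex.norm_real, Real.norm_eq_abs, abs_of_pos h0]
    simp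
  rw [e3]
  have e4 : 2 * R = 2 * PT T W * sin (W / 2) * (4 * sinh (Y / 2) ^ 2) * cexp (W ^ 2 / (2 * T)) *
      (1 + ε) := by rw [hR]; ring
  rw [e4]
  have h3 : 0 ≤ 2 / t0 ^ 3 := by positivity
  calc 2 / t0 ^ 3 * ‖2 * PT T W * sin (W / 2) * (4 * sinh (Y / 2) ^ 2) * cexp (W ^ 2 / (2 * T)) *
      (1 + ε) - W / 2 * Y ^ 2‖ ≤ 2 / t0 ^ 3 * ((1 / 40 + ‖sg κ s‖ ^ 2 / 50) *
        (‖W / 2‖ * ‖Y‖ ^ 2)) := mul_le_mul_of_nonneg_left hB h3
    _ = _ := by ring

theorem mainD_continuous (κ ch x : ℝ) : Continuous (mainD κ ch x) := by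
  unfold mainD sg bt
  refine Continuous.div ?_ ?_ ?_
  · fun_prop
  · exact continuous_const.mul (Complex.continuous_cosh.comp (by fun_prop))
  · intro s
    exact mul_ne_zero two_ne_zero (cosh_pi_ne s)

theorem Qf_continuous (κ ch : ℝ) : Continuous (Qf κ ch) := by
  unfold Qf sg bt
  fun_prop

/-- R1 -/
theorem r1 (hF : FormStatement) (hX : XbStatement) (hV : R1vStatement) (hQ : QintStatement)
    (hC : ContStatement) : R1Statement := by
  intro κ ch e t0 m n h0 h1 hT hcase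
  have hκ : κ = 1 / 2 ∨ κ = 3 / 2 := by
    rcases hcase with h | h | h <;> simp only [Prod.mk.injEq] at h <;> simp [h.1]
  have hch : -1 ≤ ch ∧ ch ≤ 0 := by
    rcases hcase with h | h | h <;> simp only [Prod.mk.injEq] at h <;> rw [h.2.1] <;>
      constructor <;> norm_num
  have hQi := hQ κ ch e hcase
  set z := zz t0 with hz
  set E : ℝ := Real.exp z * (t0 ^ 3 / 4) with hE
  have hE0 : 0 < E := by positivity
  set R : ℝ := Real.sqrt (2 * Real.pi / z) with hR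
  have hR0 : 0 ≤ R := Real.sqrt_nonneg _
  set H : ℝ → ℂ := fun s => ∫ v in (-(3 / 10 : ℝ))..(3 / 10),
    G κ t0 (ch * t0) m n (t0 * v, t0 * s) with hH
  have hGc := G_continuous hC κ t0 (ch * t0) m n h0 hκ
  have hHc : Continuous H := by
    rw [hH]
    refine intervalIntegral.continuous_parametric_intervalIntegral_of_continuous' ?_ _ _
    exact hGc.comp (by fun_prop)
  have hpt : ∀ s : ℝ, |s| ≤ 5 → ‖H s - ((E * R * 2 : ℝ) : ℂ) * mainD κ ch (m * t0) s‖ ≤
      E * R * 2 * (Qf κ ch s / (2 * Real.cosh (Real.pi * s))) := by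
    intro s hs
    have hv := hV κ t0 ch s h0 h1 hκ hch.1 hch.2 hs (Xf κ t0 ch m n s)
      (Xf_continuous hC κ t0 ch m n h0 hκ s).continuousOn
      (fun v hv => Xf_bound hF hX κ t0 ch m n h0 h1 hκ hT hch.1 hch.2 s v hs hv)
    have e1 : H s = (E : ℂ) * Pf κ (m * t0) s * ∫ v in (-(3 / 10 : ℝ))..(3 / 10),
        (KK z v : ℂ) * cexp (I * psi z v) * ell s v * Xf κ t0 ch m n s v := by
      rw [hH, ← intervalIntegral.integral_const_mul]
      refine intervalIntegral.integral_congr (fun v _ => ?_)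
      exact G_eq κ t0 ch m n h0 s v
    have e2 : ((E * R * 2 : ℝ) : ℂ) * mainD κ ch (m * t0) s =
        (E : ℂ) * Pf κ (m * t0) s * (sg κ s * bt κ ch s ^ 2 * R) := by
      have := Pf_main κ ch (m * t0) s
      calc ((E * R * 2 : ℝ) : ℂ) * mainD κ ch (m * t0) s
          = (E : ℂ) * R * (2 * mainD κ ch (m * t0) s) := by push_cast; ring
        _ = _ := by rw [← this]; ring
    rw [e1, e2, ← mul_sub, norm_mul, norm_mul, norm_Pf, Complex.norm_real, Real.norm_eq_abs,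
      abs_of_pos hE0]
    have hcp := Real.cosh_pos (Real.pi * s)
    calc E * (1 / Real.cosh (Real.pi * s)) * ‖(∫ v in (-(3 / 10 : ℝ))..(3 / 10),
        (KK z v : ℂ) * cexp (I * psi z v) * ell s v * Xf κ t0 ch m n s v) -
          sg κ s * bt κ ch s ^ 2 * R‖ ≤ E * (1 / Real.cosh (Real.pi * s)) * (R * Qf κ ch s) :=
          mul_le_mul_of_nonneg_left hv (by positivity)
      _ = _ := by field_simp
  have hmc := mainD_continuous κ ch (m * t0)
  have hI : ‖(∫ s in (-5 : ℝ)..5, H s) - ((E * R * 2 : ℝ) : ℂ) *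
      ∫ s in (-5 : ℝ)..5, mainD κ ch (m * t0) s‖ ≤ E * R * 2 * e := by
    have hsub := intervalIntegral.integral_sub (μ := volume) (a := (-5 : ℝ)) (b := 5) (f := H)
      (g := fun s => ((E * R * 2 : ℝ) : ℂ) * mainD κ ch (m * t0) s)
      (hHc.intervalIntegrable _ _) ((continuous_const.mul hmc).intervalIntegrable _ _)
    rw [← intervalIntegral.integral_const_mul, ← hsub]
    have hQc : Continuous fun s => E * R * 2 * (Qf κ ch s / (2 * Real.cosh (Real.pi * s))) := by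
      refine continuous_const.mul ((Qf_continuous κ ch).div ?_ ?_)
      · exact continuous_const.mul (Real.continuous_cosh.comp (by fun_prop))
      · intro s; have := Real.cosh_pos (Real.pi * s); positivity
    calc ‖∫ s in (-5 : ℝ)..5, (H s - ((E * R * 2 : ℝ) : ℂ) * mainD κ ch (m * t0) s)‖
        ≤ ∫ s in (-5 : ℝ)..5, E * R * 2 * (Qf κ ch s / (2 * Real.cosh (Real.pi * s))) := by
          refine intervalIntegral.norm_integral_le_of_norm_le (by norm_num) ?_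
            (hQc.intervalIntegrable _ _)
          refine Filter.Eventually.of_forall (fun s hs => hpt s ?_)
          rw [abs_le]; exact ⟨hs.1.le, hs.2⟩
      _ = E * R * 2 * ∫ s in (-5 : ℝ)..5, Qf κ ch s / (2 * Real.cosh (Real.pi * s)) := by
          rw [intervalIntegral.integral_const_mul]
      _ ≤ E * R * 2 * e := mul_le_mul_of_nonneg_left hQi (by positivity)
  have hJR : JR κ t0 (ch * t0) m n (A0 t0) =
      ((t0 ^ 2 / (4 * Real.pi ^ 2) : ℝ) : ℂ) * ∫ s in (-5 : ℝ)..5, H s := by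
    unfold JR
    have := change_var (G κ t0 (ch * t0) m n) hGc t0 h0
    unfold G at this
    simp only at this
    rw [this, hH]
    push_cast
    unfold G
    ring
  have hW : W0 t0 = t0 ^ 2 / (4 * Real.pi ^ 2) * (E * R * 2) := by
    unfold W0
    rw [hE, hR, hz]
    field_simp
    ring
  rw [hJR, hW]
  have hpos : 0 ≤ t0 ^ 2 / (4 * Real.pi ^ 2) := by positivity
  have e5 : ((t0 ^ 2 / (4 * Real.pi ^ 2) : ℝ) : ℂ) * (∫ s in (-5 : ℝ)..5, H s) -
      ((t0 ^ 2 / (4 * Real.pi ^ 2) * (E * R * 2) : ℝ) : ℂ) *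
        ∫ s in (-5 : ℝ)..5, mainD κ ch (m * t0) s =
      ((t0 ^ 2 / (4 * Real.pi ^ 2) : ℝ) : ℂ) * ((∫ s in (-5 : ℝ)..5, H s) -
        ((E * R * 2 : ℝ) : ℂ) * ∫ s in (-5 : ℝ)..5, mainD κ ch (m * t0) s) := by
    push_cast; ring
  rw [e5, norm_mul, Complex.norm_real, Real.norm_eq_abs, abs_of_nonneg hpos]
  calc t0 ^ 2 / (4 * Real.pi ^ 2) * ‖(∫ s in (-5 : ℝ)..5, H s) -
        ((E * R * 2 : ℝ) : ℂ) * ∫ s in (-5 : ℝ)..5, mainD κ ch (m * t0) s‖
      ≤ t0 ^ 2 / (4 * Real.pi ^ 2) * (E * R * 2 * e) := mul_le_mul_of_nonneg_left hI hpos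
    _ = _ := by ring

end Pool.Agent.Helper53_UR
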