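import Pool.Agent.Helper21_UR.Stmts

/-!
# Module SPLIT: the three representations of `SS`
-/

namespace Pool.Agent.Helper53_UR.Split

open Complex MeasureTheory Pool.Agent.Helper21_UR

theorem hasSum_of {f g : ℕ → ℂ} {a b : ℂ} (h : HasSum f a) (hf : ∀ n, g n = f n) (hb : b = a) :
    HasSum g b := by
  rw [show g = f from funext hf, hb]; exact h

/-! ## Power series on the unit disc -/

/-- `F` is the sum of a power series on the unit disc. -/
def IsPS (F : ℂ → ℂ) : Prop :=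
  ∃ a : ℕ → ℂ, ∀ q : ℂ, ‖q‖ < 1 → HasSum (fun n : ℕ => a n * q ^ n) (F q)

theorem IsPS.mul {F H : ℂ → ℂ} (hF : IsPS F) (hH : IsPS H) : IsPS (fun q => F q * H q) := by
  obtain ⟨a, ha⟩ := hF
  obtain ⟨b, hb⟩ := hH
  refine ⟨fun n => ∑ kl ∈ Finset.HasAntidiagonal.antidiagonal n, a kl.1 * b kl.2, fun q hq => ?_⟩
  have h1 := (ha q hq).summable.norm
  have h2 := (hb q hq).summable.norm
  have h3 := tsum_mul_tsum_eq_tsum_sum_antidiagonal_of_summable_norm h1 h2
  have h4 := (summable_norm_sum_mul_antidiagonal_of_summable_norm h1 h2).of_norm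
  rw [(ha q hq).tsum_eq, (hb q hq).tsum_eq] at h3
  have h5 := h4.hasSum
  rw [← h3] at h5
  refine hasSum_of h5 (fun n => ?_) rfl
  rw [Finset.sum_mul]
  refine Finset.sum_congr rfl (fun kl hkl => ?_)
  rw [Finset.HasAntidiagonal.mem_antidiagonal] at hkl
  rw [← hkl, pow_add]
  ring

theorem IsPS.add {F H : ℂ → ℂ} (hF : IsPS F) (hH : IsPS H) : IsPS (fun q => F q + H q) := by
  obtain ⟨a, ha⟩ := hF
  obtain ⟨b, hb⟩ := hH
  refine ⟨fun n => a n + b n, fun q hq => ?_⟩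
  have := (ha q hq).add (hb q hq)
  simpa only [add_mul] using this

theorem IsPS.const (x : ℂ) : IsPS (fun _ => x) := by
  refine ⟨fun n => if n = 0 then x else 0, fun q _ => ?_⟩
  have := hasSum_single (f := fun n : ℕ => (if n = 0 then x else 0) * q ^ n) 0 (by
    intro n hn; simp [hn])
  simpa using this

theorem IsPS.id : IsPS (fun q => q) := by
  refine ⟨fun n => if n = 1 then 1 else 0, fun q _ => ?_⟩
  have := hasSum_single (f := fun n : ℕ => (if n = 1 then (1 : ℂ) else 0) * q ^ n) 1 (by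
    intro n hn; simp [hn])
  simpa using this

theorem IsPS.congr {F H : ℂ → ℂ} (hF : IsPS F) (h : ∀ q, F q = H q) : IsPS H := by
  have : F = H := funext h
  rwa [← this]

/-- The exponents of `pt q (q^2)`. -/
def ex (j : ℕ) : ℕ := 2 * j + j * (j + 1) / 2

theorem ex_strictMono : StrictMono ex := by
  refine strictMono_nat_of_lt_succ (fun j => ?_)
  unfold ex
  have : j * (j + 1) / 2 ≤ (j + 1) * (j + 1 + 1) / 2 := by
    apply Nat.div_le_div_right; nlinarith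
  omega

theorem summable_pt (q : ℂ) (hq : ‖q‖ < 1) : Summable fun j : ℕ => (-1 : ℂ) ^ j * q ^ ex j := by
  refine Summable.of_norm_bounded (g := fun j : ℕ => ‖q‖ ^ j)
    (summable_geometric_of_lt_one (norm_nonneg q) hq) (fun j => ?_)
  rw [norm_mul, norm_pow, norm_neg, norm_one, one_pow, one_mul, norm_pow]
  exact pow_le_pow_of_le_one (norm_nonneg q) hq.le (by unfold ex; omega)

theorem pt_eq (q : ℂ) : pt q (q ^ 2) = ∑' j : ℕ, (-1 : ℂ) ^ j * q ^ ex j := by
  unfold pt ex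
  refine tsum_congr (fun j => ?_)
  rw [pow_add, pow_mul, mul_assoc]

theorem isPS_pt : IsPS (fun q => pt q (q ^ 2)) := by
  refine ⟨Function.extend ex (fun j => (-1 : ℂ) ^ j) 0, fun q hq => ?_⟩
  have h1 := (summable_pt q hq).hasSum
  rw [← pt_eq] at h1
  have h2 := (hasSum_extend_zero ex_strictMono.injective).2 h1
  convert h2 using 2 with n
  by_cases hn : ∃ j, ex j = n
  · obtain ⟨j, rfl⟩ := hn
    rw [ex_strictMono.injective.extend_apply, ex_strictMono.injective.extend_apply]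
  · rw [Function.extend_apply' _ _ _ hn, Function.extend_apply' _ _ _ hn]
    simp

theorem isPS_P2 (hP : P2Statement) : IsPS (fun q => (QP q)⁻¹ ^ 2) :=
  ⟨fun n => ((bp n n : ℕ) : ℂ), fun q hq => hP q hq⟩

/-- The function whose coefficients are `S0`. -/
noncomputable def F0 (c : ℝ) (q : ℂ) : ℂ :=
  (QP q)⁻¹ ^ 2 * (1 - q) * pt q (q ^ 2) * (cexp c - 2 * q + cexp (-c) * (q * q))

theorem isPS_F0 (hP : P2Statement) (c : ℝ) : IsPS (F0 c) := by
  have h1 : IsPS (fun q => 1 - q) :=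
    ((IsPS.const 1).add ((IsPS.const (-1)).mul IsPS.id)).congr (fun q => by ring)
  have h2 : IsPS (fun q => cexp c - 2 * q + cexp (-c) * (q * q)) :=
    (((IsPS.const (cexp c)).add ((IsPS.const (-2)).mul IsPS.id)).add
      ((IsPS.const (cexp (-c))).mul (IsPS.id.mul IsPS.id))).congr (fun q => by ring)
  exact ((isPS_P2 hP).mul h1).mul isPS_pt |>.mul h2

/-! ## The hyperbolic sine -/

theorem four_sinh_sq (x : ℂ) : 4 * sinh (x / 2) ^ 2 = cexp x - 2 + cexp (-x) := by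
  have h1 : cexp x = cexp (x / 2) * cexp (x / 2) := by rw [← Complex.exp_add]; congr 1; ring
  have h2 : cexp (-x) = cexp (-(x / 2)) * cexp (-(x / 2)) := by
    rw [← Complex.exp_add]; congr 1; ring
  have h3 : cexp (x / 2) * cexp (-(x / 2)) = 1 := by rw [← Complex.exp_add]; simp
  rw [Complex.sinh, h1, h2]
  linear_combination -2 * h3

theorem q_sinh (c : ℝ) (t : ℂ) (k : ℕ) :
    cexp (-t) ^ (k + 1) * (4 * sinh (((c : ℂ) + ((k : ℂ) + 1) * t) / 2) ^ 2) =
      cexp c - 2 * cexp (-t) ^ (k + 1) + cexp (-c) * (cexp (-t) ^ (k + 1) * cexp (-t) ^ (k + 1)) := by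
  rw [four_sinh_sq]
  have h0 : cexp (-t) ^ (k + 1) = cexp (-(((k : ℂ) + 1) * t)) := by
    rw [← Complex.exp_nat_mul]; congr 1; push_cast; ring
  rw [h0]
  have h1 : cexp ((c : ℂ) + ((k : ℂ) + 1) * t) = cexp c * cexp (((k : ℂ) + 1) * t) := by
    rw [Complex.exp_add]
  have h2 : cexp (-((c : ℂ) + ((k : ℂ) + 1) * t)) = cexp (-c) * cexp (-(((k : ℂ) + 1) * t)) := by
    rw [← Complex.exp_add]; congr 1; ring
  have h3 : cexp (((k : ℂ) + 1) * t) * cexp (-(((k : ℂ) + 1) * t)) = 1 := by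
    rw [← Complex.exp_add]; simp
  rw [h1, h2]
  linear_combination cexp c * h3

theorem sk_eq (t : ℂ) (c : ℝ) (m k : ℕ) : sk t c m k =
    cexp c * tk (cexp (-t)) m k - 2 * tk (cexp (-t)) (m + 1) k +
      cexp (-c) * tk (cexp (-t)) (m + 2) k := by
  unfold sk tk
  set q := cexp (-t) with hq
  have h := q_sinh c t k
  rw [← hq] at h
  have e1 : q ^ ((k + 1) * (m + 1) + k * (k + 1) / 2) =
      q ^ ((k + 1) * m + k * (k + 1) / 2) * q ^ (k + 1) := by
    rw [← pow_add]; congr 1; ring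
  have e2 : q ^ ((k + 1) * (m + 2) + k * (k + 1) / 2) =
      q ^ ((k + 1) * m + k * (k + 1) / 2) * (q ^ (k + 1) * q ^ (k + 1)) := by
    rw [← pow_add, ← pow_add]; congr 1; ring
  rw [e1, e2]
  linear_combination ((-1) ^ k * q ^ ((k + 1) * m + k * (k + 1) / 2) * (1 - q ^ (k + 1)) *
    pt q (q ^ (2 * (k + 1)))) * h

theorem norm_q (t0 θ : ℝ) (h0 : 0 < t0) : ‖cexp (-tt t0 θ)‖ < 1 := by
  rw [Complex.norm_exp]
  unfold tt
  simp [h0]

theorem tt_re (t0 θ : ℝ) : (tt t0 θ).re = t0 := by unfold tt; simp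

/-! ## The coefficients -/

/-- The basic representation. -/
theorem basic (hS : SymmStatement) (hM : MaingfStatement) (hI : CoefintStatement)
    (t0 c : ℝ) (m n : ℕ) (h0 : 0 < t0) (hn : 1 ≤ n) :
    (SS c m n : ℂ) = (1 / (2 * (Real.pi : ℂ))) * ∫ θ in (-Real.pi)..Real.pi,
      ((QP (cexp (-tt t0 θ)))⁻¹ ^ 2 * ∑' k : ℕ, sk (tt t0 θ) c m k) *
        cexp ((n : ℂ) * tt t0 θ) := by
  obtain ⟨d, hd, hds⟩ : ∃ d : ℕ → ℂ, (∀ n : ℕ, 1 ≤ n → d n = (u ((m : ℤ) - 1) n : ℂ)) ∧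
      ∀ q : ℂ, q ≠ 0 → ‖q‖ < 1 → HasSum (fun n : ℕ => d n * q ^ n) ((QP q)⁻¹ ^ 2 * Th q m) := by
    rcases m with _ | m
    · refine ⟨fun n => (u 1 n : ℂ) + (if n = 0 then 1 else 0), fun n hn => ?_, fun q hq0 hq => ?_⟩
      · have h1 := hS 1 n
        have h2 : ((0 : ℕ) : ℤ) - 1 = -1 := by norm_num
        rw [h2, h1]
        have h3 : n ≠ 0 := by omega
        simp [h3]
      · have h1 := (hM q hq0 hq).2.2
        have h2 := hasSum_single (f := fun n : ℕ => (if n = 0 then (1 : ℂ) else 0) * q ^ n) 0 (by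
          intro n hn; simp [hn])
        have h3 := h1.add h2
        simp only [if_true, pow_zero, mul_one, sub_add_cancel] at h3
        convert h3 using 2 with n
        ring
    · refine ⟨fun n => (u (m : ℤ) n : ℂ), fun n hn => ?_, fun q hq0 hq => ?_⟩
      · have h2 : ((m + 1 : ℕ) : ℤ) - 1 = m := by push_cast; ring
        rw [h2]
      · exact (hM q hq0 hq).2.1 m
  have hsum : ∀ q : ℂ, q ≠ 0 → ‖q‖ < 1 → HasSum (fun n : ℕ =>
      (cexp c * d n - 2 * (u (m : ℤ) n : ℂ) + cexp (-c) * (u ((m : ℤ) + 1) n : ℂ)) * q ^ n)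
      ((QP q)⁻¹ ^ 2 * (cexp c * Th q m - 2 * Th q (m + 1) + cexp (-c) * Th q (m + 2))) := by
    intro q hq0 hq
    have h1 := (hds q hq0 hq).mul_left (cexp c)
    have h2 := ((hM q hq0 hq).2.1 m).mul_left (-2)
    have h3 := ((hM q hq0 hq).2.1 (m + 1)).mul_left (cexp (-c))
    have h4 := (h1.add h2).add h3
    have e1 : ((m + 1 : ℕ) : ℤ) = (m : ℤ) + 1 := by push_cast; ring
    rw [e1] at h4
    refine hasSum_of h4 (fun n => ?_) ?_
    · ring
    · ring
  have hco := hI _ _ hsum t0 h0 n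
  have e1 : (SS c m n : ℂ) = cexp c * d n - 2 * (u (m : ℤ) n : ℂ) +
      cexp (-c) * (u ((m : ℤ) + 1) n : ℂ) := by
    unfold SS
    rw [hd n hn]
    push_cast
    ring
  rw [e1, hco]
  congr 1
  refine intervalIntegral.integral_congr (fun θ _ => ?_)
  congr 2
  have hq := norm_q t0 θ h0
  have hq0 : cexp (-tt t0 θ) ≠ 0 := Complex.exp_ne_zero _
  have hs := (hM _ hq0 hq).1
  have s0 := (hs m).of_norm
  have s1 := (hs (m + 1)).of_norm
  have s2 := (hs (m + 2)).of_norm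
  unfold Th
  rw [← tsum_mul_left, ← tsum_mul_left, ← tsum_mul_left,
    ← (s0.mul_left _).tsum_sub (s1.mul_left _),
    ← ((s0.mul_left _).sub (s1.mul_left _)).tsum_add (s2.mul_left _)]
  refine tsum_congr (fun k => ?_)
  rw [sk_eq]

theorem tt_continuous (t0 : ℝ) : Continuous fun θ : ℝ => tt t0 θ := by
  unfold tt; fun_prop

/-- Fubini for `JR`. -/
theorem JR_box (κ t0 c : ℝ) (m n : ℕ) (hG : Continuous fun p : ℝ × ℝ => FF κ (tt t0 p.1) c m p.2) :
    JR κ t0 c m n Box = (1 / (2 * (Real.pi : ℂ))) * ∫ θ in (-Real.pi)..Real.pi,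
      cexp ((n : ℂ) * tt t0 θ) * ((1 / (2 * (Real.pi : ℂ))) *
        ∫ φ in (-Real.pi)..Real.pi, FF κ (tt t0 θ) c m φ) := by
  have hpi := Real.pi_pos
  have hbox : Box = Set.Icc (-Real.pi) Real.pi ×ˢ Set.Icc (-Real.pi) Real.pi := by
    ext p
    simp only [Box, Set.mem_ofPred_eq, Set.mem_prod, Set.mem_Icc, abs_le]
  have hg : Continuous fun p : ℝ × ℝ => cexp ((n : ℂ) * tt t0 p.1) * FF κ (tt t0 p.1) c m p.2 :=
    ((continuous_const.mul ((tt_continuous t0).comp continuous_fst)).cexp).mul hG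
  have hint : IntegrableOn (fun p : ℝ × ℝ => cexp ((n : ℂ) * tt t0 p.1) *
      FF κ (tt t0 p.1) c m p.2) Box := by
    rw [hbox]
    exact hg.continuousOn.integrableOn_compact (isCompact_Icc.prod isCompact_Icc)
  unfold JR
  have e1 : ∫ p in Box, cexp ((n : ℂ) * tt t0 p.1) * FF κ (tt t0 p.1) c m p.2 =
      ∫ θ in (-Real.pi)..Real.pi, cexp ((n : ℂ) * tt t0 θ) *
        ∫ φ in (-Real.pi)..Real.pi, FF κ (tt t0 θ) c m φ := by
    rw [hbox] at hint ⊢
    rw [Measure.volume_eq_prod] at hint ⊢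
    rw [setIntegral_prod _ hint, integral_Icc_eq_integral_Ioc,
      ← intervalIntegral.integral_of_le (by linarith)]
    refine intervalIntegral.integral_congr (fun θ _ => ?_)
    simp only
    rw [integral_Icc_eq_integral_Ioc, ← intervalIntegral.integral_of_le (by linarith),
      intervalIntegral.integral_const_mul]
  rw [e1]
  have e2 : ∀ θ : ℝ, cexp ((n : ℂ) * tt t0 θ) * ((1 / (2 * (Real.pi : ℂ))) *
        ∫ φ in (-Real.pi)..Real.pi, FF κ (tt t0 θ) c m φ) =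
      (1 / (2 * (Real.pi : ℂ))) * (cexp ((n : ℂ) * tt t0 θ) *
        ∫ φ in (-Real.pi)..Real.pi, FF κ (tt t0 θ) c m φ) := fun θ => by ring
  simp_rw [e2]
  rw [intervalIntegral.integral_const_mul, ← mul_assoc]
  congr 1
  have : (Real.pi : ℂ) ≠ 0 := by exact_mod_cast hpi.ne'
  field_simp
  norm_num

/-- The first term times the exponential. -/
theorem exp_sk0 (t : ℂ) (c : ℝ) (m N : ℕ) :
    cexp (((N + m : ℕ) : ℂ) * t) * sk t c m 0 = cexp ((N : ℂ) * t) * (cexp (-t) *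
      (1 - cexp (-t)) * pt (cexp (-t)) (cexp (-t) ^ 2) * (4 * sinh (((c : ℂ) + t) / 2) ^ 2)) := by
  unfold sk
  have e1 : cexp (((N + m : ℕ) : ℂ) * t) * cexp (-t) ^ ((0 + 1) * (m + 1) + 0 * (0 + 1) / 2) =
      cexp ((N : ℂ) * t) * cexp (-t) := by
    rw [← Complex.exp_nat_mul, ← Complex.exp_add, ← Complex.exp_add]
    congr 1
    simp only [zero_add, one_mul, zero_mul, Nat.zero_div, add_zero]
    push_cast
    ring
  have e2 : (c : ℂ) + (((0 : ℕ) : ℂ) + 1) * t = c + t := by push_cast; ring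
  rw [e2]
  simp only [pow_zero, one_mul, zero_add, pow_one, mul_one]
  simp only [zero_add, one_mul] at e1
  linear_combination ((1 - cexp (-t)) * pt (cexp (-t)) (cexp (-t) ^ 2) *
    (4 * sinh (((c : ℂ) + t) / 2) ^ 2)) * e1

/-- `S0` as a coefficient. -/
theorem S0_eq (t0 c : ℝ) (m N : ℕ) :
    S0i t0 c N = (1 / (2 * (Real.pi : ℂ))) * ∫ θ in (-Real.pi)..Real.pi,
      (QP (cexp (-tt t0 θ)))⁻¹ ^ 2 * cexp (((N + m : ℕ) : ℂ) * tt t0 θ) * sk (tt t0 θ) c m 0 := by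
  unfold S0i
  congr 1
  refine intervalIntegral.integral_congr (fun θ _ => ?_)
  have := exp_sk0 (tt t0 θ) c m N
  linear_combination (-(QP (cexp (-tt t0 θ)))⁻¹ ^ 2) * this

/-- `S0` does not depend on the radius. -/
theorem S0_indep (hP : P2Statement) (hI : CoefintStatement) (c : ℝ) (N : ℕ) (t0 t1 : ℝ)
    (h0 : 0 < t0) (h1 : 0 < t1) : S0i t0 c N = S0i t1 c N := by
  obtain ⟨a, ha⟩ := isPS_F0 hP c
  have key : ∀ t : ℝ, 0 < t → S0i t c N = a N := by
    intro t ht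
    rw [hI a (F0 c) (fun q _ hq => ha q hq) t ht N]
    unfold S0i
    congr 1
    refine intervalIntegral.integral_congr (fun θ _ => ?_)
    unfold F0
    have h := q_sinh c (tt t θ) 0
    have e2 : (c : ℂ) + (((0 : ℕ) : ℂ) + 1) * tt t θ = c + tt t θ := by push_cast; ring
    rw [e2, zero_add, pow_one] at h
    linear_combination ((QP (cexp (-tt t θ)))⁻¹ ^ 2 * cexp ((N : ℂ) * tt t θ) *
      (1 - cexp (-tt t θ)) * pt (cexp (-tt t θ)) (cexp (-tt t θ) ^ 2)) * h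
  rw [key t0 h0, key t1 h1]

/-- SPLIT -/
theorem split (hS : SymmStatement) (hM : MaingfStatement) (hI : CoefintStatement)
    (hP : P2Statement) (hC : ContStatement) (h1 : Four1Statement) (h2 : Four2Statement) :
    SplitStatement := by
  refine ⟨?_, ?_, ?_⟩
  · intro t0 c m n h0 hn
    rw [basic hS hM hI t0 c m n h0 hn, JR_box _ _ _ _ _ (hC.1 t0 c h0 m)]
    congr 1
    refine intervalIntegral.integral_congr (fun θ _ => ?_)
    have := h1 (tt t0 θ) c m (by rw [tt_re]; exact h0)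
    change ((QP (cexp (-tt t0 θ)))⁻¹ ^ 2 * ∑' k : ℕ, sk (tt t0 θ) c m k) *
      cexp ((n : ℂ) * tt t0 θ) = cexp ((n : ℂ) * tt t0 θ) * ((1 / (2 * (Real.pi : ℂ))) *
        ∫ φ in (-Real.pi)..Real.pi, FF (1 / 2) (tt t0 θ) c m φ)
    rw [← this, mul_comm]
  · intro t0 t1 c m N h0 ht1 hN
    rw [S0_indep hP hI c N t1 t0 ht1 h0, basic hS hM hI t0 c m (N + m) h0 (by omega),
      S0_eq t0 c m N, JR_box _ _ _ _ _ (hC.2.1 t0 c h0 m), ← mul_add]
    congr 1
    have hexp : Continuous fun θ : ℝ => cexp (((N + m : ℕ) : ℂ) * tt t0 θ) :=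
      (continuous_const.mul (tt_continuous t0)).cexp
    have i1 : Continuous fun θ : ℝ =>
        (QP (cexp (-tt t0 θ)))⁻¹ ^ 2 * cexp (((N + m : ℕ) : ℂ) * tt t0 θ) * sk (tt t0 θ) c m 0 := by
      have := hexp.mul (hC.2.2.1 t0 c h0 m 0)
      refine this.congr (fun θ => ?_)
      rw [Pi.mul_apply]; ring
    have e2 : ∀ θ : ℝ, cexp (((N + m : ℕ) : ℂ) * tt t0 θ) * ((1 / (2 * (Real.pi : ℂ))) *
        ∫ φ in (-Real.pi)..Real.pi, FF (3 / 2) (tt t0 θ) c m φ) =
        cexp (((N + m : ℕ) : ℂ) * tt t0 θ) * ((QP (cexp (-tt t0 θ)))⁻¹ ^ 2 *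
          ∑' k : ℕ, sk (tt t0 θ) c m (k + 1)) := by
      intro θ
      rw [h2 (tt t0 θ) c m (by rw [tt_re]; exact h0)]
    have i2 : Continuous fun θ : ℝ =>
        cexp (((N + m : ℕ) : ℂ) * tt t0 θ) * ((QP (cexp (-tt t0 θ)))⁻¹ ^ 2 *
          ∑' k : ℕ, sk (tt t0 θ) c m (k + 1)) := hexp.mul (hC.2.2.2.1 t0 c h0 m 1)
    simp_rw [e2]
    rw [← intervalIntegral.integral_add (i1.intervalIntegrable _ _) (i2.intervalIntegrable _ _)]
    refine intervalIntegral.integral_congr (fun θ _ => ?_)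
    have hs := (hC.2.2.2.2 (tt t0 θ) c (by rw [tt_re]; exact h0) m).of_norm
    change ((QP (cexp (-tt t0 θ)))⁻¹ ^ 2 * ∑' k : ℕ, sk (tt t0 θ) c m k) *
      cexp (((N + m : ℕ) : ℂ) * tt t0 θ) = _ + _
    rw [hs.tsum_eq_zero_add]
    ring
  · intro t0 c m N h0 hN
    rw [basic hS hM hI t0 c m (N + m) h0 (by omega), S0_eq t0 c m N]
    unfold S1i S2i
    rw [← mul_add, ← mul_add]
    congr 1
    have hexp : Continuous fun θ : ℝ => cexp (((N + m : ℕ) : ℂ) * tt t0 θ) :=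
      (continuous_const.mul (tt_continuous t0)).cexp
    have i1 : ∀ k : ℕ, Continuous fun θ : ℝ =>
        (QP (cexp (-tt t0 θ)))⁻¹ ^ 2 * cexp (((N + m : ℕ) : ℂ) * tt t0 θ) * sk (tt t0 θ) c m k := by
      intro k
      have := hexp.mul (hC.2.2.1 t0 c h0 m k)
      refine this.congr (fun θ => ?_)
      rw [Pi.mul_apply]; ring
    have i2 : Continuous fun θ : ℝ => (QP (cexp (-tt t0 θ)))⁻¹ ^ 2 *
        cexp (((N + m : ℕ) : ℂ) * tt t0 θ) * ∑' k : ℕ, sk (tt t0 θ) c m (k + 2) := by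
      have := hexp.mul (hC.2.2.2.1 t0 c h0 m 2)
      refine this.congr (fun θ => ?_)
      rw [Pi.mul_apply]; ring
    have i3 : Continuous fun θ : ℝ =>
        (QP (cexp (-tt t0 θ)))⁻¹ ^ 2 * cexp (((N + m : ℕ) : ℂ) * tt t0 θ) * sk (tt t0 θ) c m 0 +
        (QP (cexp (-tt t0 θ)))⁻¹ ^ 2 * cexp (((N + m : ℕ) : ℂ) * tt t0 θ) * sk (tt t0 θ) c m 1 :=
      (i1 0).add (i1 1)
    rw [← intervalIntegral.integral_add ((i1 0).intervalIntegrable _ _)
      ((i1 1).intervalIntegrable _ _), ← intervalIntegral.integral_add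
      (i3.intervalIntegrable _ _) (i2.intervalIntegrable _ _)]
    refine intervalIntegral.integral_congr (fun θ _ => ?_)
    have hs := (hC.2.2.2.2 (tt t0 θ) c (by rw [tt_re]; exact h0) m).of_norm
    change ((QP (cexp (-tt t0 θ)))⁻¹ ^ 2 * ∑' k : ℕ, sk (tt t0 θ) c m k) *
      cexp (((N + m : ℕ) : ℂ) * tt t0 θ) = _ + _ + _
    rw [← hs.sum_add_tsum_nat_add 2]
    simp only [Finset.sum_range_succ, Finset.sum_range_zero, zero_add]
    ring

end Pool.Agent.Helper53_UR.Split
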